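import Pool.Agent.Work.MP_09dd0a_co.Theta

/-!
The least number of vertices of the `n`-cycle which can always be kept when a straight-line drawing
of it is untangled has order of magnitude `n^(2/3)`: `f(n) = Θ(n^(2/3))`.
-/

namespace Pool.Agent.Results.MP_09dd0a_co.ThetaTwoThirds

open Pool.Agent.Work.MP_09dd0a_co Asymptotics Filter

/-- `f(n) = fix(C_n) = Θ(n^(2/3))` as `n → ∞`. -/
theorem result :
    (fun n : ℕ => (fixGraph (SimpleGraph.cycleGraph n) : ℝ)) =Θ[atTop]
      (fun n : ℕ => (n : ℝ) ^ ((2 : ℝ) / 3)) := by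
  obtain ⟨c, hc, C, hC, n0, h⟩ := fixGraph_theta
  constructor
  · refine IsBigO.of_bound C ?_
    filter_upwards [eventually_ge_atTop n0] with n hn
    have h1 := (h n hn).2
    rw [Real.norm_of_nonneg (Nat.cast_nonneg _), Real.norm_of_nonneg (by positivity)]
    exact h1
  · refine IsBigO.of_bound c⁻¹ ?_
    filter_upwards [eventually_ge_atTop n0] with n hn
    have h1 := (h n hn).1
    rw [Real.norm_of_nonneg (Nat.cast_nonneg _), Real.norm_of_nonneg (by positivity)]
    rw [inv_mul_eq_div, le_div_iff₀ hc]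
    linarith

end Pool.Agent.Results.MP_09dd0a_co.ThetaTwoThirds
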